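import Mathlib

namespace Pool.Agent.Results.MP_6c466c_co.SumsOfDilates

open scoped ENNReal Pointwise
open Filter Topology

/-- A fractional dilate: a function `ℤ → [0,1]` with finite sum. -/
def IsFractionalDilate (α : ℤ → ℝ≥0∞) : Prop := (∀ i, α i ≤ 1) ∧ ∑' i, α i ≠ ⊤

/-- `‖α + α‖ = inf_{0<p<1} ∑_i (∑_{j+k=i} α(j)α(k))^p`. -/
noncomputable def sumNorm (α : ℤ → ℝ≥0∞) : ℝ≥0∞ :=
  ⨅ p ∈ Set.Ioo (0 : ℝ) 1,
    ∑' i : ℤ, (∑' x : {x : ℤ × ℤ // x.1 + x.2 = i}, α x.1.1 * α x.1.2) ^ p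

/-- `‖α + 2·α‖ = inf_{0<p<1} ∑_i (∑_{j+2k=i} α(j)α(k))^p`. -/
noncomputable def dilateNorm (α : ℤ → ℝ≥0∞) : ℝ≥0∞ :=
  ⨅ p ∈ Set.Ioo (0 : ℝ) 1,
    ∑' i : ℤ, (∑' x : {x : ℤ × ℤ // x.1 + 2 * x.2 = i}, α x.1.1 * α x.1.2) ^ p

/-- The indicator function of a finite set of integers. -/
noncomputable def ind (S : Finset ℤ) : ℤ → ℝ≥0∞ := fun i => if i ∈ S then 1 else 0

/-- `2 · S`. -/
def dbl (S : Finset ℤ) : Finset ℤ := S.image (fun s => 2 * s)

/-! ### The set -/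

@[irreducible] def enc (v : ℤ × ℤ × ℤ) : ℤ := v.1 + 128 * v.2.1 + 16384 * v.2.2

@[irreducible] def E1 : Finset ℤ := (Finset.range 16).image (fun m : ℕ => 2 * (m : ℤ))
@[irreducible] def T1 : Finset ℤ := {0, 1, 32, 33}
@[irreducible] def X1 : Finset ℤ := (Finset.range 49).image (fun m : ℕ => 2 * (m : ℤ))
@[irreducible] def X2 : Finset ℤ := (Finset.range 24).image (fun m : ℕ => 4 * (m : ℤ)) ∪
  (Finset.range 24).image (fun m : ℕ => 4 * (m : ℤ) + 1)
@[irreducible] def X3 : Finset ℤ := (T1 ×ˢ T1).image (fun x => x.1 + 2 * x.2)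

def cube (X : Finset ℤ) : Finset (ℤ × ℤ × ℤ) := X ×ˢ (X ×ˢ X)

@[irreducible] def S : Finset ℤ := (cube E1 ∪ cube T1).image enc

lemma mem_cube (X : Finset ℤ) (a b c : ℤ) : (a, b, c) ∈ cube X ↔ a ∈ X ∧ b ∈ X ∧ c ∈ X := by
  simp [cube]

lemma card_cube (X : Finset ℤ) : (cube X).card = X.card ^ 3 := by
  simp only [cube, Finset.card_product]
  ring

lemma enc_add (a b c a' b' c' : ℤ) :
    enc (a + a', b + b', c + c') = enc (a, b, c) + enc (a', b', c') := by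
  simp only [enc]; ring

lemma enc_add_two (a b c a' b' c' : ℤ) :
    enc (a + 2 * a', b + 2 * b', c + 2 * c') = enc (a, b, c) + 2 * enc (a', b', c') := by
  simp only [enc]; ring

lemma mem_S_of_E {a b c : ℤ} (ha : a ∈ E1) (hb : b ∈ E1) (hc : c ∈ E1) : enc (a, b, c) ∈ S := by
  rw [S]
  exact Finset.mem_image_of_mem _ (Finset.mem_union_left _ ((mem_cube _ _ _ _).2 ⟨ha, hb, hc⟩))

lemma mem_S_of_T {a b c : ℤ} (ha : a ∈ T1) (hb : b ∈ T1) (hc : c ∈ T1) : enc (a, b, c) ∈ S := by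
  rw [S]
  exact Finset.mem_image_of_mem _ (Finset.mem_union_right _ ((mem_cube _ _ _ _).2 ⟨ha, hb, hc⟩))

lemma mem_E1 (z : ℤ) : z ∈ E1 ↔ 0 ≤ z ∧ z < 32 ∧ z % 2 = 0 := by
  simp only [E1, Finset.mem_image, Finset.mem_range]
  constructor
  · rintro ⟨m, hm, rfl⟩
    omega
  · rintro ⟨h0, h1, h2⟩
    exact ⟨(z / 2).toNat, by omega, by omega⟩

lemma mem_T1 (z : ℤ) : z ∈ T1 ↔ z = 0 ∨ z = 1 ∨ z = 32 ∨ z = 33 := by
  simp [T1]

lemma mem_X1 (z : ℤ) : z ∈ X1 ↔ 0 ≤ z ∧ z < 97 ∧ z % 2 = 0 := by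
  simp only [X1, Finset.mem_image, Finset.mem_range]
  constructor
  · rintro ⟨m, hm, rfl⟩
    omega
  · rintro ⟨h0, h1, h2⟩
    exact ⟨(z / 2).toNat, by omega, by omega⟩

lemma mem_X2 (z : ℤ) : z ∈ X2 ↔ 0 ≤ z ∧ z < 96 ∧ z % 4 < 2 := by
  simp only [X2, Finset.mem_union, Finset.mem_image, Finset.mem_range]
  constructor
  · rintro (⟨m, hm, rfl⟩ | ⟨m, hm, rfl⟩) <;> omega
  · rintro ⟨h0, h1, h2⟩
    by_cases h : z % 4 = 0
    · exact Or.inl ⟨(z / 4).toNat, by omega, by omega⟩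
    · exact Or.inr ⟨(z / 4).toNat, by omega, by omega⟩

lemma split (a : ℤ) (ha : a ∈ Finset.Ico (0 : ℤ) 64) : ∃ e ∈ E1, ∃ t ∈ T1, a = e + t := by
  rw [Finset.mem_Ico] at ha
  refine ⟨a % 32 - a % 2, ?_, a % 2 + 32 * (a / 32), ?_, by omega⟩
  · rw [mem_E1]; omega
  · rw [mem_T1]; omega

lemma mem_img {X : Finset (ℤ × ℤ × ℤ)} {z : ℤ} (h : z ∈ X.image enc) :
    ∃ a b c, (a, b, c) ∈ X ∧ enc (a, b, c) = z := by
  obtain ⟨v, hv, hz⟩ := Finset.mem_image.1 h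
  exact ⟨v.1, v.2.1, v.2.2, hv, hz⟩

lemma lower_aux (I : Finset ℤ) (hI : ∀ a ∈ I, ∃ e ∈ E1, ∃ t ∈ T1, a = e + t) :
    (cube I).image enc ⊆ S + S := by
  intro z hz
  obtain ⟨a, b, c, h, hz⟩ := mem_img hz
  rw [mem_cube] at h
  rw [← hz]
  obtain ⟨e1, he1, t1, ht1, h1⟩ := hI a h.1
  obtain ⟨e2, he2, t2, ht2, h2⟩ := hI b h.2.1
  obtain ⟨e3, he3, t3, ht3, h3⟩ := hI c h.2.2
  rw [h1, h2, h3, enc_add]
  exact Finset.add_mem_add (mem_S_of_E he1 he2 he3) (mem_S_of_T ht1 ht2 ht3)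

lemma card_aux (I : Finset ℤ) (hI : ∀ a ∈ I, 0 ≤ a ∧ a < 64) :
    ((cube I).image enc).card = I.card ^ 3 := by
  rw [Finset.card_image_of_injOn, card_cube]
  intro v hv v' hv' heq
  obtain ⟨a, b, c⟩ := v
  obtain ⟨a', b', c'⟩ := v'
  rw [Finset.mem_coe, mem_cube] at hv hv'
  have g1 := hI a hv.1
  have g2 := hI b hv.2.1
  have g3 := hI c hv.2.2
  have k1 := hI a' hv'.1
  have k2 := hI b' hv'.2.1
  have k3 := hI c' hv'.2.2
  simp only [enc] at heq
  have h1 : a = a' := by omega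
  have h2 : b = b' := by omega
  have h3 : c = c' := by omega
  rw [h1, h2, h3]

lemma lower : 262144 ≤ (S + S).card := by
  have h1 := lower_aux (Finset.Ico 0 64) split
  have h2 := card_aux (Finset.Ico 0 64) (fun a ha => Finset.mem_Ico.1 ha)
  have h3 : (Finset.Ico (0 : ℤ) 64).card = 64 := rfl
  rw [h3] at h2
  have h4 := Finset.card_le_card h1
  rw [h2] at h4
  norm_num at h4
  exact h4

lemma EE : ∀ e ∈ E1, ∀ f ∈ E1, e + 2 * f ∈ X1 := by
  intro e he f hf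
  rw [mem_E1] at he hf
  rw [mem_X1]
  omega

lemma ET : ∀ e ∈ E1, ∀ f ∈ T1, e + 2 * f ∈ X1 := by
  intro e he f hf
  rw [mem_E1] at he
  rw [mem_T1] at hf
  rw [mem_X1]
  omega

lemma TE : ∀ e ∈ T1, ∀ f ∈ E1, e + 2 * f ∈ X2 := by
  intro e he f hf
  rw [mem_T1] at he
  rw [mem_E1] at hf
  rw [mem_X2]
  omega

lemma TT : ∀ e ∈ T1, ∀ f ∈ T1, e + 2 * f ∈ X3 := by
  intro e he f hf
  rw [X3]
  exact Finset.mem_image.2 ⟨(e, f), Finset.mem_product.2 ⟨he, hf⟩, rfl⟩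

lemma upper_aux (z : ℤ) (hz : z ∈ S + dbl S) :
    z ∈ ((cube X1).image enc ∪ (cube X2).image enc) ∪ (cube X3).image enc := by
  rw [Finset.mem_add] at hz
  obtain ⟨s, hs, t, ht, hz⟩ := hz
  rw [dbl, Finset.mem_image] at ht
  obtain ⟨t', ht, htt⟩ := ht
  rw [S] at hs ht
  obtain ⟨a, b, c, h, hs'⟩ := mem_img hs
  obtain ⟨a', b', c', h', ht'⟩ := mem_img ht
  rw [← hz, ← htt, ← hs', ← ht', ← enc_add_two]
  rw [Finset.mem_union, mem_cube, mem_cube] at h h'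
  rcases h with ⟨h1, h2, h3⟩ | ⟨h1, h2, h3⟩
  · rcases h' with ⟨g1, g2, g3⟩ | ⟨g1, g2, g3⟩
    · exact Finset.mem_union_left _ (Finset.mem_union_left _ (Finset.mem_image_of_mem _
        ((mem_cube _ _ _ _).2 ⟨EE _ h1 _ g1, EE _ h2 _ g2, EE _ h3 _ g3⟩)))
    · exact Finset.mem_union_left _ (Finset.mem_union_left _ (Finset.mem_image_of_mem _
        ((mem_cube _ _ _ _).2 ⟨ET _ h1 _ g1, ET _ h2 _ g2, ET _ h3 _ g3⟩)))
  · rcases h' with ⟨g1, g2, g3⟩ | ⟨g1, g2, g3⟩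
    · exact Finset.mem_union_left _ (Finset.mem_union_right _ (Finset.mem_image_of_mem _
        ((mem_cube _ _ _ _).2 ⟨TE _ h1 _ g1, TE _ h2 _ g2, TE _ h3 _ g3⟩)))
    · exact Finset.mem_union_right _ (Finset.mem_image_of_mem _
        ((mem_cube _ _ _ _).2 ⟨TT _ h1 _ g1, TT _ h2 _ g2, TT _ h3 _ g3⟩))

lemma upper : (S + dbl S).card ≤ 232337 := by
  have hsub : S + dbl S ⊆ ((cube X1).image enc ∪ (cube X2).image enc) ∪ (cube X3).image enc :=
    upper_aux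
  have c1 : X1.card ≤ 49 := by
    rw [X1]
    exact Finset.card_image_le.trans (by simp)
  have c2 : X2.card ≤ 48 := by
    rw [X2]
    refine (Finset.card_union_le _ _).trans ?_
    have h1 : ((Finset.range 24).image (fun m : ℕ => 4 * (m : ℤ))).card ≤ 24 :=
      Finset.card_image_le.trans (by simp)
    have h2 : ((Finset.range 24).image (fun m : ℕ => 4 * (m : ℤ) + 1)).card ≤ 24 :=
      Finset.card_image_le.trans (by simp)
    omega
  have c3 : X3.card ≤ 16 := by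
    rw [X3]
    refine Finset.card_image_le.trans ?_
    rw [Finset.card_product, T1]
    decide
  have d1 : ((cube X1).image enc).card ≤ 49 ^ 3 :=
    Finset.card_image_le.trans (by rw [card_cube]; exact Nat.pow_le_pow_left c1 3)
  have d2 : ((cube X2).image enc).card ≤ 48 ^ 3 :=
    Finset.card_image_le.trans (by rw [card_cube]; exact Nat.pow_le_pow_left c2 3)
  have d3 : ((cube X3).image enc).card ≤ 16 ^ 3 :=
    Finset.card_image_le.trans (by rw [card_cube]; exact Nat.pow_le_pow_left c3 3)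
  have e1 := Finset.card_le_card hsub
  have e2 := Finset.card_union_le ((cube X1).image enc ∪ (cube X2).image enc)
    ((cube X3).image enc)
  have e3 := Finset.card_union_le ((cube X1).image enc) ((cube X2).image enc)
  norm_num at d1 d2 d3
  omega

/-! ### Norms of indicator functions -/

lemma ind_isFractionalDilate (S : Finset ℤ) : IsFractionalDilate (ind S) := by
  constructor
  · intro i
    unfold ind
    split_ifs <;> simp
  · have : ∑' i, ind S i = (S.card : ℝ≥0∞) := by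
      rw [tsum_eq_sum (s := S)]
      · unfold ind
        rw [Finset.sum_congr rfl (fun i hi => if_pos hi)]
        simp
      · intro i hi
        exact if_neg hi
    rw [this]
    exact ENNReal.natCast_ne_top _

lemma sumNorm_ge (S : Finset ℤ) : ((S + S).card : ℝ≥0∞) ≤ sumNorm (ind S) := by
  unfold sumNorm
  refine le_iInf₂ fun p hp => ?_
  have h1 : ∀ i ∈ S + S,
      (1 : ℝ≥0∞) ≤ (∑' x : {x : ℤ × ℤ // x.1 + x.2 = i}, ind S x.1.1 * ind S x.1.2) ^ p := by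
    intro i hi
    rw [Finset.mem_add] at hi
    obtain ⟨a, ha, b, hb, hab⟩ := hi
    have h2 : (1 : ℝ≥0∞) ≤ ∑' x : {x : ℤ × ℤ // x.1 + x.2 = i}, ind S x.1.1 * ind S x.1.2 := by
      have h3 := ENNReal.le_tsum (f := fun x : {x : ℤ × ℤ // x.1 + x.2 = i} =>
        ind S x.1.1 * ind S x.1.2) ⟨(a, b), hab⟩
      refine le_trans ?_ h3
      simp [ind, ha, hb]
    calc (1 : ℝ≥0∞) = 1 ^ p := by rw [ENNReal.one_rpow]
      _ ≤ _ := ENNReal.rpow_le_rpow h2 hp.1.le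
  calc ((S + S).card : ℝ≥0∞) = ∑ i ∈ S + S, (1 : ℝ≥0∞) := by simp
    _ ≤ ∑ i ∈ S + S, (∑' x : {x : ℤ × ℤ // x.1 + x.2 = i}, ind S x.1.1 * ind S x.1.2) ^ p :=
        Finset.sum_le_sum h1
    _ ≤ _ := ENNReal.sum_le_tsum _

lemma dilateNorm_le_rpow (S : Finset ℤ) (p : ℝ) (hp : p ∈ Set.Ioo (0 : ℝ) 1) :
    dilateNorm (ind S) ≤ (S + dbl S).card * ((S.card * S.card : ℕ) : ℝ≥0∞) ^ p := by
  unfold dilateNorm
  refine (iInf₂_le p hp).trans ?_
  have hzero : ∀ i ∉ S + dbl S,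
      (∑' x : {x : ℤ × ℤ // x.1 + 2 * x.2 = i}, ind S x.1.1 * ind S x.1.2) ^ p = 0 := by
    intro i hi
    have h0 : (∑' x : {x : ℤ × ℤ // x.1 + 2 * x.2 = i}, ind S x.1.1 * ind S x.1.2) = 0 := by
      rw [ENNReal.tsum_eq_zero]
      rintro ⟨⟨a, b⟩, hab⟩
      simp only at hab
      by_cases ha : a ∈ S
      · by_cases hb : b ∈ S
        · exfalso
          apply hi
          rw [Finset.mem_add]
          exact ⟨a, ha, 2 * b, Finset.mem_image_of_mem _ hb, hab⟩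
        · simp [ind, hb]
      · simp [ind, ha]
    rw [h0, ENNReal.zero_rpow_of_pos hp.1]
  rw [tsum_eq_sum hzero]
  have hle : ∀ i ∈ S + dbl S,
      (∑' x : {x : ℤ × ℤ // x.1 + 2 * x.2 = i}, ind S x.1.1 * ind S x.1.2) ^ p
        ≤ ((S.card * S.card : ℕ) : ℝ≥0∞) ^ p := by
    intro i _
    apply ENNReal.rpow_le_rpow _ hp.1.le
    calc (∑' x : {x : ℤ × ℤ // x.1 + 2 * x.2 = i}, ind S x.1.1 * ind S x.1.2)
        ≤ ∑' x : ℤ × ℤ, ind S x.1 * ind S x.2 :=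
          ENNReal.tsum_comp_le_tsum_of_injective Subtype.val_injective
            (fun x : ℤ × ℤ => ind S x.1 * ind S x.2)
      _ = ∑ x ∈ S ×ˢ S, ind S x.1 * ind S x.2 := by
          apply tsum_eq_sum
          rintro ⟨a, b⟩ hab
          rw [Finset.mem_product] at hab
          simp only [not_and_or] at hab
          rcases hab with h | h <;> simp [ind, h]
      _ = ∑ x ∈ S ×ˢ S, (1 : ℝ≥0∞) := by
          apply Finset.sum_congr rfl
          rintro ⟨a, b⟩ hab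
          rw [Finset.mem_product] at hab
          simp [ind, hab.1, hab.2]
      _ = ((S.card * S.card : ℕ) : ℝ≥0∞) := by
          simp [Finset.card_product]
  calc _ ≤ ∑ i ∈ S + dbl S, ((S.card * S.card : ℕ) : ℝ≥0∞) ^ p := Finset.sum_le_sum hle
    _ = _ := by simp

lemma dilateNorm_le (S : Finset ℤ) (hS : S.Nonempty) :
    dilateNorm (ind S) ≤ (S + dbl S).card := by
  have hc : 0 < S.card * S.card := Nat.mul_pos hS.card_pos hS.card_pos
  set c : ℕ := S.card * S.card with hcdef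
  have ht : Tendsto (fun p : ℝ => ((S + dbl S).card : ℝ≥0∞) * ENNReal.ofReal ((c : ℝ) ^ p))
      (𝓝[>] 0) (𝓝 (((S + dbl S).card : ℝ≥0∞) * ENNReal.ofReal ((c : ℝ) ^ (0 : ℝ)))) := by
    apply ENNReal.Tendsto.const_mul
    · apply ENNReal.tendsto_ofReal
      have : ContinuousAt (fun p : ℝ => (c : ℝ) ^ p) 0 :=
        Real.continuousAt_const_rpow (by positivity)
      exact this.tendsto.mono_left nhdsWithin_le_nhds
    · right
      exact ENNReal.natCast_ne_top _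
  rw [Real.rpow_zero, ENNReal.ofReal_one, mul_one] at ht
  apply ge_of_tendsto ht
  have hmem : Set.Ioo (0 : ℝ) 1 ∈ 𝓝[>] (0 : ℝ) := Ioo_mem_nhdsGT (by norm_num)
  filter_upwards [hmem] with p hp
  have h1 := dilateNorm_le_rpow S p hp
  rw [← hcdef] at h1
  have h2 : (c : ℝ≥0∞) ^ p = ENNReal.ofReal ((c : ℝ) ^ p) := by
    rw [← ENNReal.ofReal_rpow_of_pos (by positivity), ENNReal.ofReal_natCast]
  rw [h2] at h1
  exact h1

/-- **Negative answer.**  There is a finite set `S` of integers with `|S + 2·S| < |S + S|`, and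
for its indicator function `α` one has `‖α + 2·α‖ < ‖α + α‖`. -/
theorem result : ∃ S : Finset ℤ, (S + dbl S).card < (S + S).card ∧
    IsFractionalDilate (ind S) ∧ dilateNorm (ind S) < sumNorm (ind S) := by
  have h : (S + dbl S).card < (S + S).card :=
    lt_of_le_of_lt upper (lt_of_lt_of_le (by norm_num) lower)
  refine ⟨S, h, ind_isFractionalDilate S, ?_⟩
  have hne : S.Nonempty := by
    rw [Finset.nonempty_iff_ne_empty]
    intro h0
    rw [h0] at h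
    simp at h
  exact lt_of_le_of_lt (dilateNorm_le S hne)
    (lt_of_lt_of_le (by exact_mod_cast h) (sumNorm_ge S))

end Pool.Agent.Results.MP_6c466c_co.SumsOfDilates
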